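import Pool.Agent.helper67.TPD.Spec

set_option autoImplicit false

open Finset PowerSeries

noncomputable section

namespace Pool.Agent.TPD

open Pool.Agent.EP Pool.Agent.PQ

theorem CNQ_le {B Q₁ Q₂ P R n D y : ℕ} (hy : 1 ≤ y) (hQ₁ : 0 < Q₁) (hQ₂ : 0 < Q₂) (hD : Q₁ * Q₂ ≤ D) (hP : P ≤ 2 * y)
    (hR : R ≤ 2 * y) (h : RelP B Q₁ Q₂ P R n) : n ≤ D * y ^ 2 := by
  have h1 : 24 * n ≤ Q₁ * P * (Q₂ * R) + 1 := by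
    obtain ⟨u, h2 | h2⟩ := h
    · rw [h2.2]
      exact Nat.add_le_add_right (Nat.mul_le_mul_left _ (Nat.sub_le _ _)) 1
    · rw [h2.2]
      exact Nat.add_le_add_right (Nat.mul_le_mul_right _ (Nat.sub_le _ _)) 1
  have h3 : Q₁ * P * (Q₂ * R) ≤ 4 * (D * y ^ 2) := by
    calc Q₁ * P * (Q₂ * R) ≤ Q₁ * (2 * y) * (Q₂ * (2 * y)) := Nat.mul_le_mul (Nat.mul_le_mul_left _ hP) (Nat.mul_le_mul_left _ hR)
      _ = 4 * (Q₁ * Q₂ * y ^ 2) := by ring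
      _ ≤ 4 * (D * y ^ 2) := Nat.mul_le_mul_left _ (Nat.mul_le_mul_right _ hD)
  have h5 : 1 ≤ D * y ^ 2 := by
    have h6 : 1 ≤ Q₁ * Q₂ := Nat.mul_pos hQ₁ hQ₂
    exact Nat.mul_pos (by omega) (by positivity)
  omega

theorem CNQ_pair (hCNL : CNL_stmt) (hCLR : CLR_stmt) (i a b Q₁ Q₂ D m c d : ℕ) (c₀ : ℝ) (hib : i + 3 ≤ b) (hQ₁ : 0 < Q₁)
    (hQ₂ : 0 < Q₂) (hD : Q₁ * Q₂ ≤ D) (hc₀ : 0 < c₀)
    (hcl : ∀ P R : ℕ, P % m = c % m → R % m = d % m → (Q₁ * P * (Q₂ * R) + 1) % 2 ^ b = (24 * a) % 2 ^ b) :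
    ∃ (e : ℝ) (y₁ : ℕ), 0 < e ∧ ∀ (ρ φ : ℕ → ZMod 2) (y : ℕ), y₁ ≤ y → 1 ≤ y → ∀ E : Finset (ℕ × ℕ),
      (∀ x ∈ E, x.1 ∈ Ioc y (2 * y) ∧ x.2 ∈ Ioc y (2 * y) ∧ x.1.Prime ∧ x.2.Prime ∧ x.1 % m = c % m ∧ x.2 % m = d % m ∧
        Bad b Q₁ Q₂ x.1 x.2 ρ φ) → c₀ * (y : ℝ) ^ 2 / Real.log y ^ 2 ≤ #E →
      e * (y : ℝ) ^ (3 / 2 : ℝ) / Real.log y ^ 2 ≤ (Nf i a ρ φ (D * y ^ 2) : ℝ) := by
  obtain ⟨e, y₁, he, h1⟩ := hCNL (2 ^ b) Q₁ Q₂ c₀ (by positivity) hQ₁ hQ₂ hc₀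
  refine ⟨e, y₁, he, fun ρ φ y hy hy1 E hE hcard => ?_⟩
  unfold Nf
  refine h1 y hy E _ ?_ ?_ ?_ hcard
  · intro x hx
    obtain ⟨h2, h3, -⟩ := hE x hx
    exact mem_product.mpr ⟨h2, h3⟩
  · intro x hx
    obtain ⟨-, -, h2, h3, -⟩ := hE x hx
    exact ⟨h2, h3⟩
  · intro x hx hexc
    obtain ⟨h2, h3, -, -, h4, h5, h6⟩ := hE x hx
    rcases h6 with h6 | ⟨n, h7, h8⟩
    · exact absurd h6 hexc
    · refine ⟨n, ?_, h7⟩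
      rw [mem_filter, mem_range]
      refine ⟨?_, hCLR b i Q₁ Q₂ x.1 x.2 n a hib h7 (hcl _ _ h4 h5), h8⟩
      exact Nat.lt_succ_of_le (CNQ_le hy1 hQ₁ hQ₂ hD (mem_Ioc.mp h2).2 (mem_Ioc.mp h3).2 h7)

theorem CNQ_mod {b t x y z w c : ℕ} (h1 : x % (24 * t * 2 ^ b) = y % (24 * t * 2 ^ b))
    (h2 : z % (24 * t * 2 ^ b) = w % (24 * t * 2 ^ b)) (h3 : (y * w + 1) % 2 ^ b = c) : (x * z + 1) % 2 ^ b = c := by
  have hd : 2 ^ b ∣ 24 * t * 2 ^ b := Dvd.intro_left _ rfl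
  have e1 : x ≡ y [MOD 2 ^ b] := Nat.ModEq.of_dvd hd h1
  have e2 : z ≡ w [MOD 2 ^ b] := Nat.ModEq.of_dvd hd h2
  have e3 : x * z + 1 ≡ y * w + 1 [MOD 2 ^ b] := (e1.mul e2).add_right 1
  rw [← h3]
  exact e3

theorem CNQ_large (w : ℝ) (hw : 0 < w) : ∃ Y : ℕ, ∀ y : ℕ, Y ≤ y → Real.log y ≤ w / 2 * y := by
  have h1 := Real.isLittleO_log_id_atTop.bound (c := w / 2) (by positivity)
  have h2 := tendsto_natCast_atTop_atTop (R := ℝ) |>.eventually h1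
  obtain ⟨Y, hY⟩ := Filter.eventually_atTop.mp h2
  refine ⟨Y, fun y hy => ?_⟩
  have h3 := hY y hy
  simp only [id, Real.norm_eq_abs] at h3
  have h4 : |(y : ℝ)| = (y : ℝ) := abs_of_nonneg (Nat.cast_nonneg y)
  rw [h4] at h3
  exact (le_abs_self _).trans h3

open Classical in
theorem CNQ (hCNL : CNL_stmt) (hQUA : QUA_stmt) (hWPQ : WPQ_stmt) (hKYD : KYD_stmt) (hCLR : CLR_stmt) (hCRM : CRM_stmt) :
    CNQ_stmt := by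
  intro i a t ρ ht hρ
  obtain ⟨κ, b, s, s₁, s₂, m, c₁, c₂, d₁, d₂, h4⟩ := hCRM i a t ht
  obtain ⟨Q, hQ⟩ : ∃ Q, Q = ∏ q ∈ s, q := ⟨_, rfl⟩
  obtain ⟨Q1, hQ1⟩ : ∃ Q1, Q1 = ∏ q ∈ s₁, q := ⟨_, rfl⟩
  obtain ⟨Q2, hQ2⟩ : ∃ Q2, Q2 = ∏ q ∈ s₂, q := ⟨_, rfl⟩
  have pQ : 0 < Q := by
    rw [hQ]
    exact prod_pos fun q hq => (h4.hs q hq).1.pos
  have pQ1 : 0 < Q1 := by
    rw [hQ1]
    exact prod_pos fun q hq => (h4.hs₁ q hq).1.pos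
  have pQ2 : 0 < Q2 := by
    rw [hQ2]
    exact prod_pos fun q hq => (h4.hs₂ q hq).1.pos
  have hkk := h4.kk
  have hMM := h4.MM
  have hcls := h4.cls
  rw [← hQ1] at hkk
  rw [← hQ, ← hQ2] at hMM
  rw [← hQ] at hcls
  obtain ⟨w1, hw1, x1, hx1⟩ := hWPQ b 1 m c₁ one_pos h4.m0 h4.cc₁
  obtain ⟨w2, hw2, x2, hx2⟩ := hWPQ b Q1 m c₂ pQ1 h4.m0 h4.cc₂
  obtain ⟨w3, hw3, x3, hx3⟩ := hWPQ b Q m d₁ pQ h4.m0 h4.dd₁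
  obtain ⟨w4, hw4, x4, hx4⟩ := hWPQ b Q2 m d₂ pQ2 h4.m0 h4.dd₂
  obtain ⟨w, hw, l1, l2, l3, l4⟩ : ∃ w : ℝ, 0 < w ∧ w ≤ w1 ∧ w ≤ w2 ∧ w ≤ w3 ∧ w ≤ w4 :=
    ⟨min (min w1 w2) (min w3 w4), lt_min (lt_min hw1 hw2) (lt_min hw3 hw4), (min_le_left _ _).trans (min_le_left _ _),
      (min_le_left _ _).trans (min_le_right _ _), (min_le_right _ _).trans (min_le_left _ _),
      (min_le_right _ _).trans (min_le_right _ _)⟩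
  have hc0 : 0 < w ^ 2 / 16 := by positivity
  have i11 : ∀ P R : ℕ, P % m = c₁ % m → R % m = d₁ % m → (1 * P * (Q * R) + 1) % 2 ^ b = (24 * a) % 2 ^ b := by
    intro P R hP hR
    rw [one_mul]
    exact hcls P R hP hR
  have i12 : ∀ P R : ℕ, P % m = c₁ % m → R % m = d₂ % m → (1 * P * (Q2 * R) + 1) % 2 ^ b = (24 * a) % 2 ^ b := by
    intro P R hP hR
    rw [one_mul]
    exact CNQ_mod rfl (hMM d₁ R rfl hR).2.2.2.1.symm (hcls P d₁ hP rfl)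
  have i21 : ∀ P R : ℕ, P % m = c₂ % m → R % m = d₁ % m → (Q1 * P * (Q * R) + 1) % 2 ^ b = (24 * a) % 2 ^ b := by
    intro P R hP hR
    exact CNQ_mod (hkk c₁ P rfl hP).2.2.1.symm rfl (hcls c₁ R rfl hR)
  have i22 : ∀ P R : ℕ, P % m = c₂ % m → R % m = d₂ % m → (Q1 * P * (Q2 * R) + 1) % 2 ^ b = (24 * a) % 2 ^ b := by
    intro P R hP hR
    exact CNQ_mod (hkk c₁ P rfl hP).2.2.1.symm (hMM d₁ R rfl hR).2.2.2.1.symm (hcls c₁ d₁ rfl rfl)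
  obtain ⟨e1, y1, he1, k1⟩ := CNQ_pair hCNL hCLR i a b 1 Q (Q * Q1 * Q2) m c₁ d₁ (w ^ 2 / 16) h4.ib one_pos pQ
    (by nlinarith [Nat.mul_pos pQ1 pQ2, Nat.mul_le_mul_left Q (Nat.mul_pos pQ1 pQ2)]) hc0 i11
  obtain ⟨e2, y2, he2, k2⟩ := CNQ_pair hCNL hCLR i a b 1 Q2 (Q * Q1 * Q2) m c₁ d₂ (w ^ 2 / 16) h4.ib one_pos pQ2
    (by nlinarith [Nat.mul_pos pQ pQ1, Nat.mul_le_mul_right Q2 (Nat.mul_pos pQ pQ1)]) hc0 i12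
  obtain ⟨e3, y3, he3, k3⟩ := CNQ_pair hCNL hCLR i a b Q1 Q (Q * Q1 * Q2) m c₂ d₁ (w ^ 2 / 16) h4.ib pQ1 pQ
    (by nlinarith [Nat.mul_pos pQ pQ1, Nat.mul_le_mul_left (Q * Q1) pQ2]) hc0 i21
  obtain ⟨e4, y4, he4, k4⟩ := CNQ_pair hCNL hCLR i a b Q1 Q2 (Q * Q1 * Q2) m c₂ d₂ (w ^ 2 / 16) h4.ib pQ1 pQ2
    (by nlinarith [Nat.mul_pos pQ1 pQ2, Nat.mul_le_mul_right (Q1 * Q2) pQ]) hc0 i22
  obtain ⟨Y, hY⟩ := CNQ_large w hw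
  obtain ⟨z, hz⟩ : ∃ z : ℕ, z = s.sup id + s₁.sup id + s₂.sup id := ⟨_, rfl⟩
  obtain ⟨e, he, f1, f2, f3, f4⟩ : ∃ e : ℝ, 0 < e ∧ e ≤ e1 ∧ e ≤ e2 ∧ e ≤ e3 ∧ e ≤ e4 :=
    ⟨min (min e1 e2) (min e3 e4), lt_min (lt_min he1 he2) (lt_min he3 he4), (min_le_left _ _).trans (min_le_left _ _),
      (min_le_left _ _).trans (min_le_right _ _), (min_le_right _ _).trans (min_le_left _ _),
      (min_le_right _ _).trans (min_le_right _ _)⟩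
  refine ⟨Q * Q1 * Q2, x1 + x2 + x3 + x4 + y1 + y2 + y3 + y4 + Y + z + 3, e, by positivity, he, fun φ hφ y hy => ?_⟩
  have hyr : (3 : ℝ) ≤ y := by
    have : 3 ≤ y := by omega
    exact_mod_cast this
  have hlog : 0 < Real.log y := Real.log_pos (by linarith)
  obtain ⟨A1, hA1⟩ : ∃ A, A = {P ∈ Ioc y (2 * y) | P.Prime ∧ P % m = c₁ % m ∧ Even #(uB b (1 * P))} := ⟨_, rfl⟩
  obtain ⟨A2, hA2⟩ : ∃ A, A = {P ∈ Ioc y (2 * y) | P.Prime ∧ P % m = c₂ % m ∧ Even #(uB b (Q1 * P))} := ⟨_, rfl⟩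
  obtain ⟨C1, hC1⟩ : ∃ A, A = {P ∈ Ioc y (2 * y) | P.Prime ∧ P % m = d₁ % m ∧ Even #(uB b (Q * P))} := ⟨_, rfl⟩
  obtain ⟨C2, hC2⟩ : ∃ A, A = {P ∈ Ioc y (2 * y) | P.Prime ∧ P % m = d₂ % m ∧ Even #(uB b (Q2 * P))} := ⟨_, rfl⟩
  have g1 : w1 * y / Real.log y ≤ (#A1 : ℝ) := by
    rw [hA1]
    exact_mod_cast hx1 y (by omega)
  have g2 : w2 * y / Real.log y ≤ (#A2 : ℝ) := by
    rw [hA2]
    exact_mod_cast hx2 y (by omega)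
  have g3 : w3 * y / Real.log y ≤ (#C1 : ℝ) := by
    rw [hC1]
    exact_mod_cast hx3 y (by omega)
  have g4 : w4 * y / Real.log y ≤ (#C2 : ℝ) := by
    rw [hC2]
    exact_mod_cast hx4 y (by omega)
  obtain ⟨N, hN⟩ : ∃ N : ℕ, N = ⌊w * y / Real.log y⌋₊ := ⟨_, rfl⟩
  have hpos : 0 ≤ w * y / Real.log y := by positivity
  have hmono : ∀ w' : ℝ, w ≤ w' → w * y / Real.log y ≤ w' * y / Real.log y := by
    intro w' h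
    exact div_le_div_of_nonneg_right (mul_le_mul_of_nonneg_right h (by positivity)) hlog.le
  have hNle : ∀ k : ℕ, w * y / Real.log y ≤ (k : ℝ) → N ≤ k := by
    intro k hk
    rw [hN]
    exact Nat.floor_le_of_le hk
  have hNlow : w / 2 * y / Real.log y ≤ (N : ℝ) := by
    have h1 : w * y / Real.log y < (N : ℝ) + 1 := by
      rw [hN]
      exact Nat.lt_floor_add_one _
    have h2 : 1 ≤ w / 2 * y / Real.log y := by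
      rw [le_div_iff₀ hlog, one_mul]
      exact hY y (by omega)
    have h3 : w * y / Real.log y = w / 2 * y / Real.log y + w / 2 * y / Real.log y := by ring
    linarith
  have hkey := hQUA A1 A2 C1 C2 ((A1 ×ˢ C1).filter fun x => Bad b 1 Q x.1 x.2 ρ φ)
    ((A1 ×ˢ C2).filter fun x => Bad b 1 Q2 x.1 x.2 ρ φ) ((A2 ×ˢ C1).filter fun x => Bad b Q1 Q x.1 x.2 ρ φ)
    ((A2 ×ˢ C2).filter fun x => Bad b Q1 Q2 x.1 x.2 ρ φ) N (hNle _ ((hmono _ l1).trans g1)) (hNle _ ((hmono _ l2).trans g2))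
    (hNle _ ((hmono _ l3).trans g3)) (hNle _ ((hmono _ l4).trans g4)) (by
      intro P₁ hP₁ P₂ hP₂ R₁ hR₁ R₂ hR₂
      have m1 := hP₁
      have m2 := hP₂
      have m3 := hR₁
      have m4 := hR₂
      rw [hA1, mem_filter, mem_Ioc] at m1
      rw [hA2, mem_filter, mem_Ioc] at m2
      rw [hC1, mem_filter, mem_Ioc] at m3
      rw [hC2, mem_filter, mem_Ioc] at m4
      have n1 : R₁ ∉ s := by
        intro h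
        have := Finset.le_sup (f := id) h
        simp only [id] at this
        omega
      have n2 : P₂ ∉ s₁ := by
        intro h
        have := Finset.le_sup (f := id) h
        simp only [id] at this
        omega
      have n3 : R₂ ∉ s₂ := by
        intro h
        have := Finset.le_sup (f := id) h
        simp only [id] at this
        omega
      have hb := hKYD i a t κ b s s₁ s₂ m c₁ c₂ d₁ d₂ ρ φ ht hρ hφ h4 P₁ P₂ R₁ R₂ m1.2.1 m2.2.1 m3.2.1 m4.2.1 m1.2.2.1 m2.2.2.1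
        m3.2.2.1 m4.2.2.1 n1 n2 n3 m1.2.2.2 (by rw [← hQ1]; exact m2.2.2.2) (by rw [← hQ]; exact m3.2.2.2)
        (by rw [← hQ2]; exact m4.2.2.2)
      rw [← hQ, ← hQ1, ← hQ2] at hb
      simp only [mem_filter, mem_product]
      rcases hb with hb | hb | hb | hb
      · exact Or.inl ⟨⟨hP₁, hR₁⟩, hb⟩
      · exact Or.inr (Or.inl ⟨⟨hP₁, hR₂⟩, hb⟩)
      · exact Or.inr (Or.inr (Or.inl ⟨⟨hP₂, hR₁⟩, hb⟩))
      · exact Or.inr (Or.inr (Or.inr ⟨⟨hP₂, hR₂⟩, hb⟩)))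
  have hN2 : w ^ 2 / 4 * (y : ℝ) ^ 2 / Real.log y ^ 2 ≤ (N : ℝ) ^ 2 := by
    have h1 : (w / 2 * y / Real.log y) ^ 2 ≤ (N : ℝ) ^ 2 := pow_le_pow_left₀ (by positivity) hNlow 2
    have h2 : (w / 2 * y / Real.log y) ^ 2 = w ^ 2 / 4 * (y : ℝ) ^ 2 / Real.log y ^ 2 := by
      rw [div_pow, mul_pow, div_pow]
      norm_num
    rw [← h2]
    exact h1
  have hsplit : ∀ M : ℝ, w ^ 2 / 4 * (y : ℝ) ^ 2 / Real.log y ^ 2 ≤ 4 * M → w ^ 2 / 16 * (y : ℝ) ^ 2 / Real.log y ^ 2 ≤ M := by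
    intro M hM
    have h1 : w ^ 2 / 4 * (y : ℝ) ^ 2 / Real.log y ^ 2 = 4 * (w ^ 2 / 16 * (y : ℝ) ^ 2 / Real.log y ^ 2) := by ring
    rw [h1] at hM
    linarith
  have hfin : ∀ e' : ℝ, e ≤ e' → e' * (y : ℝ) ^ (3 / 2 : ℝ) / Real.log y ^ 2 ≤ (Nf i a ρ φ (Q * Q1 * Q2 * y ^ 2) : ℝ) →
      e * (y : ℝ) ^ (3 / 2 : ℝ) / Real.log y ^ 2 ≤ (Nf i a ρ φ (Q * Q1 * Q2 * y ^ 2) : ℝ) := by
    intro e' h1 h2
    refine le_trans ?_ h2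
    exact div_le_div_of_nonneg_right (mul_le_mul_of_nonneg_right h1 (by positivity)) (by positivity)
  have hkeyr : (N : ℝ) ^ 2 ≤ (#((A1 ×ˢ C1).filter fun x => Bad b 1 Q x.1 x.2 ρ φ) : ℝ) +
      #((A1 ×ˢ C2).filter fun x => Bad b 1 Q2 x.1 x.2 ρ φ) + #((A2 ×ˢ C1).filter fun x => Bad b Q1 Q x.1 x.2 ρ φ) +
      #((A2 ×ˢ C2).filter fun x => Bad b Q1 Q2 x.1 x.2 ρ φ) := by
    exact_mod_cast hkey
  have hmem : ∀ (A C : Finset ℕ) (q₁ q₂ r₁ r₂ α β : ℕ), A = {P ∈ Ioc y (2 * y) | P.Prime ∧ P % m = α % m ∧ Even #(uB b (r₁ * P))} →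
      C = {P ∈ Ioc y (2 * y) | P.Prime ∧ P % m = β % m ∧ Even #(uB b (r₂ * P))} →
      ∀ x ∈ (A ×ˢ C).filter (fun x => Bad b q₁ q₂ x.1 x.2 ρ φ), x.1 ∈ Ioc y (2 * y) ∧ x.2 ∈ Ioc y (2 * y) ∧ x.1.Prime ∧
        x.2.Prime ∧ x.1 % m = α % m ∧ x.2 % m = β % m ∧ Bad b q₁ q₂ x.1 x.2 ρ φ := by
    intro A C q₁ q₂ r₁ r₂ α β hA hC x hx
    rw [mem_filter, mem_product] at hx
    obtain ⟨⟨h1, h2⟩, h3⟩ := hx
    rw [hA, mem_filter] at h1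
    rw [hC, mem_filter] at h2
    exact ⟨h1.1, h2.1, h1.2.1, h2.2.1, h1.2.2.1, h2.2.2.1, h3⟩
  rcases le_or_gt (w ^ 2 / 4 * (y : ℝ) ^ 2 / Real.log y ^ 2)
    (4 * (#((A1 ×ˢ C1).filter fun x => Bad b 1 Q x.1 x.2 ρ φ) : ℝ)) with q1 | q1
  · exact hfin e1 f1 (k1 ρ φ y (by omega) (by omega) _ (hmem A1 C1 1 Q 1 Q c₁ d₁ hA1 hC1) (hsplit _ q1))
  rcases le_or_gt (w ^ 2 / 4 * (y : ℝ) ^ 2 / Real.log y ^ 2)
    (4 * (#((A1 ×ˢ C2).filter fun x => Bad b 1 Q2 x.1 x.2 ρ φ) : ℝ)) with q2 | q2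
  · exact hfin e2 f2 (k2 ρ φ y (by omega) (by omega) _ (hmem A1 C2 1 Q2 1 Q2 c₁ d₂ hA1 hC2) (hsplit _ q2))
  rcases le_or_gt (w ^ 2 / 4 * (y : ℝ) ^ 2 / Real.log y ^ 2)
    (4 * (#((A2 ×ˢ C1).filter fun x => Bad b Q1 Q x.1 x.2 ρ φ) : ℝ)) with q3 | q3
  · exact hfin e3 f3 (k3 ρ φ y (by omega) (by omega) _ (hmem A2 C1 Q1 Q Q1 Q c₂ d₁ hA2 hC1) (hsplit _ q3))
  rcases le_or_gt (w ^ 2 / 4 * (y : ℝ) ^ 2 / Real.log y ^ 2)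
    (4 * (#((A2 ×ˢ C2).filter fun x => Bad b Q1 Q2 x.1 x.2 ρ φ) : ℝ)) with q4 | q4
  · exact hfin e4 f4 (k4 ρ φ y (by omega) (by omega) _ (hmem A2 C2 Q1 Q2 Q1 Q2 c₂ d₂ hA2 hC2) (hsplit _ q4))
  · exfalso
    linarith

end Pool.Agent.TPD
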